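import Pool.Agent.helper57.DH.SpecL

set_option autoImplicit false

open Filter Topology MeasureTheory
open scoped commutatorElement

namespace Pool.Agent.helper90.DH

open Pool.Agent.helper64.D2

theorem LEA_mem (s : ℕ) (k : ℤ) (x : ℝ) : x ∈ cell s k ↔ ci s x = k := by
  have h2 : (0 : ℝ) < 2 ^ s := by positivity
  unfold cell ci
  rw [Set.mem_Ico, Int.floor_eq_iff, div_le_iff₀ h2, lt_div_iff₀ h2, mul_comm x]

theorem LEA_self (s : ℕ) (x : ℝ) : x ∈ cell s (ci s x) := (LEA_mem s _ x).2 rfl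

theorem LEA_mid {s : ℕ} {k : ℤ} {x : ℝ} (h : x ∈ cell s k) : ci s x = k ∧ mid s x = ((k : ℝ) + 1 / 2) / 2 ^ s := by
  have h1 := (LEA_mem s k x).1 h
  exact ⟨h1, by unfold mid; rw [h1]⟩

theorem LEA_meas (s : ℕ) (k : ℤ) : MeasurableSet (cell s k) := measurableSet_Ico

theorem LEA_split (s : ℕ) (k : ℤ) : cell s k = cell (s + 1) (2 * k) ∪ cell (s + 1) (2 * k + 1) := by
  have h2 : (0 : ℝ) < 2 ^ s := by positivity
  have e1 : (((2 * k : ℤ) : ℝ)) / 2 ^ (s + 1) = (k : ℝ) / 2 ^ s := by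
    push_cast; rw [pow_succ]; field_simp
  have e2 : (((2 * k : ℤ) : ℝ) + 1) / 2 ^ (s + 1) = ((((2 * k + 1 : ℤ)) : ℝ)) / 2 ^ (s + 1) := by
    push_cast; rfl
  have e3 : ((((2 * k + 1 : ℤ)) : ℝ) + 1) / 2 ^ (s + 1) = ((k : ℝ) + 1) / 2 ^ s := by
    push_cast; rw [pow_succ]; field_simp; ring
  unfold cell
  rw [e2, e1, e3, Set.Ico_union_Ico_eq_Ico]
  · rw [pow_succ]
    push_cast
    rw [div_le_div_iff₀ h2 (by positivity)]
    nlinarith
  · rw [pow_succ]
    push_cast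
    rw [div_le_div_iff₀ (by positivity) h2]
    nlinarith

theorem LEA_disj (s : ℕ) (k l : ℤ) (h : k ≠ l) : Disjoint (cell s k) (cell s l) := by
  rw [Set.disjoint_left]
  intro x hx hy
  exact h ((LEA_mem s k x).1 hx ▸ (LEA_mem s l x).1 hy)

theorem LEA_parent (s : ℕ) (k : ℤ) : cell (s + 1) k ⊆ cell s (k / 2) := by
  rw [LEA_split s (k / 2)]
  rcases Int.emod_two_eq_zero_or_one k with h | h
  · have : k = 2 * (k / 2) := by omega
    intro x hx
    left
    rw [← this]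
    exact hx
  · have : k = 2 * (k / 2) + 1 := by omega
    intro x hx
    right
    rw [← this]
    exact hx

theorem LEA_PA (s r : ℕ) (f : ℝ → ℝ) (h : s ≤ r) (hf : PA s f) : PA r f := by
  induction r, h using Nat.le_induction with
  | base => exact hf
  | succ n _ ih =>
    intro k
    obtain ⟨a, b, hab⟩ := ih (k / 2)
    exact ⟨a, b, fun x hx => hab x (LEA_parent n k hx)⟩

theorem LEA_quad (s : ℕ) (k : ℤ) (p q r : ℝ) :
    IntegrableOn (fun t : ℝ => p + q * (t - ((k : ℝ) + 1 / 2) / 2 ^ s) + r * (t - ((k : ℝ) + 1 / 2) / 2 ^ s) ^ 2) (cell s k) ∧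
    ∫ t in cell s k, (p + q * (t - ((k : ℝ) + 1 / 2) / 2 ^ s) + r * (t - ((k : ℝ) + 1 / 2) / 2 ^ s) ^ 2) = p / 2 ^ s + r / (12 * 2 ^ (3 * s)) := by
  have h2 : (0 : ℝ) < 2 ^ s := by positivity
  set m : ℝ := ((k : ℝ) + 1 / 2) / 2 ^ s with hm
  have hc : Continuous (fun t : ℝ => p + q * (t - m) + r * (t - m) ^ 2) := by fun_prop
  constructor
  · exact (hc.integrableOn_Icc).mono_set Set.Ico_subset_Icc_self
  · unfold cell
    have hle : (k : ℝ) / 2 ^ s ≤ ((k : ℝ) + 1) / 2 ^ s := by gcongr; linarith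
    rw [integral_Ico_eq_integral_Ioc, ← intervalIntegral.integral_of_le hle]
    have hd : ∀ t ∈ Set.uIcc ((k : ℝ) / 2 ^ s) (((k : ℝ) + 1) / 2 ^ s),
        HasDerivAt (fun t : ℝ => p * (t - m) + q * (t - m) ^ 2 / 2 + r * (t - m) ^ 3 / 3) (p + q * (t - m) + r * (t - m) ^ 2) t := by
      intro t _
      have h0 : HasDerivAt (fun t : ℝ => t - m) 1 t := (hasDerivAt_id t).sub_const m
      have h1 := (h0.const_mul p)
      have h3 := (((h0.pow 2).const_mul q).div_const 2)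
      have h4 := (((h0.pow 3).const_mul r).div_const 3)
      have h5 := (h1.add h3).add h4
      refine HasDerivAt.congr_deriv h5 ?_
      simp
      ring
    rw [intervalIntegral.integral_eq_sub_of_hasDerivAt hd (hc.intervalIntegrable _ _)]
    have a1 : (k : ℝ) / 2 ^ s - m = - (1 / 2) / 2 ^ s := by rw [hm]; ring
    have a2 : ((k : ℝ) + 1) / 2 ^ s - m = (1 / 2) / 2 ^ s := by rw [hm]; ring
    rw [a1, a2]
    have e : (2 : ℝ) ^ (3 * s) = (2 ^ s) ^ 3 := by rw [mul_comm, pow_mul]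
    rw [e]
    field_simp
    ring

theorem LEA_on (s : ℕ) (k : ℤ) (f : ℝ → ℝ) (x : ℝ) (hx : x ∈ cell s k) :
    Es s f x = 2 ^ s * (∫ t in cell s k, f t) + 12 * 2 ^ (3 * s) * (x - ((k : ℝ) + 1 / 2) / 2 ^ s) *
      ∫ t in cell s k, (t - ((k : ℝ) + 1 / 2) / 2 ^ s) * f t := by
  unfold Es
  rw [(LEA_mid hx).2, (LEA_mid hx).1]

theorem LEA_PAEs (s : ℕ) (f : ℝ → ℝ) : PA s (Es s f) := by
  intro k
  refine ⟨2 ^ s * (∫ t in cell s k, f t) - 12 * 2 ^ (3 * s) * (((k : ℝ) + 1 / 2) / 2 ^ s) * ∫ t in cell s k, (t - ((k : ℝ) + 1 / 2) / 2 ^ s) * f t,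
    12 * 2 ^ (3 * s) * ∫ t in cell s k, (t - ((k : ℝ) + 1 / 2) / 2 ^ s) * f t, ?_⟩
  intro x hx
  rw [LEA_on s k f x hx]
  ring

theorem LEA_fix (s : ℕ) (f : ℝ → ℝ) (hf : PA s f) (x : ℝ) : Es s f x = f x := by
  have h2 : (0 : ℝ) < 2 ^ s := by positivity
  obtain ⟨a, b, hab⟩ := hf (ci s x)
  have hx := LEA_self s x
  set k : ℤ := ci s x with hk
  rw [LEA_on s k f x hx]
  set m : ℝ := ((k : ℝ) + 1 / 2) / 2 ^ s with hm
  have i1 : ∫ t in cell s k, f t = ∫ t in cell s k, ((a + b * m) + b * (t - m) + 0 * (t - m) ^ 2) := by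
    refine setIntegral_congr_fun (LEA_meas s k) ?_
    intro t ht
    show f t = _
    rw [hab t ht]
    ring
  have i2 : ∫ t in cell s k, (t - m) * f t = ∫ t in cell s k, (0 + (a + b * m) * (t - m) + b * (t - m) ^ 2) := by
    refine setIntegral_congr_fun (LEA_meas s k) ?_
    intro t ht
    show (t - m) * f t = _
    rw [hab t ht]
    ring
  rw [i1, i2, (LEA_quad s k _ _ _).2, (LEA_quad s k _ _ _).2, hab x hx]
  field_simp
  ring

theorem LEA_BMint (f : ℝ → ℝ) (hf : BM f) (c : ℝ) (s : ℕ) (k : ℤ) :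
    IntegrableOn f (cell s k) ∧ IntegrableOn (fun t => (t - c) * f t) (cell s k) := by
  obtain ⟨hm, ⟨B, hB⟩, _⟩ := hf
  have h1 : IntegrableOn f (Set.Icc ((k : ℝ) / 2 ^ s) (((k : ℝ) + 1) / 2 ^ s)) := by
    refine Measure.integrableOn_of_bounded (M := B) ?_ hm.aestronglyMeasurable ?_
    · exact measure_Icc_lt_top.ne
    · exact Eventually.of_forall (fun x => by rw [Real.norm_eq_abs]; exact hB x)
  have h2 : IntegrableOn (fun t => (t - c) * f t) (Set.Icc ((k : ℝ) / 2 ^ s) (((k : ℝ) + 1) / 2 ^ s)) :=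
    h1.continuousOn_mul (by fun_prop) isCompact_Icc
  exact ⟨h1.mono_set Set.Ico_subset_Icc_self, h2.mono_set Set.Ico_subset_Icc_self⟩

theorem LEA_down (F G : ℝ → ℝ) (s r : ℕ) (h : s ≤ r) :
    (∀ l : ℤ, IntegrableOn F (cell r l) ∧ IntegrableOn G (cell r l) ∧ ∫ t in cell r l, F t = ∫ t in cell r l, G t) →
    ∀ k : ℤ, IntegrableOn F (cell s k) ∧ IntegrableOn G (cell s k) ∧ ∫ t in cell s k, F t = ∫ t in cell s k, G t := by
  induction r, h using Nat.le_induction with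
  | base => exact fun h => h
  | succ n _ ih =>
    intro H
    refine ih ?_
    intro l
    obtain ⟨a1, a2, a3⟩ := H (2 * l)
    obtain ⟨b1, b2, b3⟩ := H (2 * l + 1)
    have hd : Disjoint (cell (n + 1) (2 * l)) (cell (n + 1) (2 * l + 1)) := LEA_disj _ _ _ (by omega)
    rw [LEA_split n l]
    refine ⟨a1.union b1, a2.union b2, ?_⟩
    rw [setIntegral_union hd (LEA_meas _ _) a1 b1, setIntegral_union hd (LEA_meas _ _) a2 b2, a3, b3]

theorem LEA_mom (r : ℕ) (l : ℤ) (f : ℝ → ℝ) (hf : BM f) (c : ℝ) :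
    IntegrableOn (Es r f) (cell r l) ∧ IntegrableOn (fun t => (t - c) * Es r f t) (cell r l) ∧
    ∫ t in cell r l, Es r f t = ∫ t in cell r l, f t ∧
    ∫ t in cell r l, (t - c) * Es r f t = ∫ t in cell r l, (t - c) * f t := by
  have h2 : (0 : ℝ) < 2 ^ r := by positivity
  set m : ℝ := ((l : ℝ) + 1 / 2) / 2 ^ r with hm
  obtain ⟨I, hI⟩ : ∃ I, I = ∫ t in cell r l, f t := ⟨_, rfl⟩
  obtain ⟨J, hJ⟩ : ∃ J, J = ∫ t in cell r l, (t - m) * f t := ⟨_, rfl⟩
  have hon : ∀ t ∈ cell r l, Es r f t = 2 ^ r * I + 12 * 2 ^ (3 * r) * J * (t - m) + 0 * (t - m) ^ 2 := by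
    intro t ht
    rw [LEA_on r l f t ht, ← hI, ← hm, ← hJ]
    ring
  have hon2 : ∀ t ∈ cell r l, (t - c) * Es r f t =
      (m - c) * (2 ^ r * I) + (2 ^ r * I + (m - c) * (12 * 2 ^ (3 * r) * J)) * (t - m) + (12 * 2 ^ (3 * r) * J) * (t - m) ^ 2 := by
    intro t ht
    rw [hon t ht]
    ring
  have q1 := LEA_quad r l (2 ^ r * I) (12 * 2 ^ (3 * r) * J) 0
  have q2 := LEA_quad r l ((m - c) * (2 ^ r * I)) (2 ^ r * I + (m - c) * (12 * 2 ^ (3 * r) * J)) (12 * 2 ^ (3 * r) * J)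
  rw [← hm] at q1 q2
  refine ⟨?_, ?_, ?_, ?_⟩
  · exact q1.1.congr_fun (fun t ht => (hon t ht).symm) (LEA_meas r l)
  · exact q2.1.congr_fun (fun t ht => (hon2 t ht).symm) (LEA_meas r l)
  · rw [setIntegral_congr_fun (LEA_meas r l) hon, q1.2, ← hI]
    field_simp
    ring
  · rw [setIntegral_congr_fun (LEA_meas r l) hon2, q2.2]
    have e1 : ∫ t in cell r l, (t - c) * f t = J + (m - c) * I := by
      have : ∀ t ∈ cell r l, (t - c) * f t = (t - m) * f t + (m - c) * f t := by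
        intro t _
        ring
      rw [setIntegral_congr_fun (LEA_meas r l) this, integral_add, integral_const_mul, ← hJ, ← hI]
      · exact (LEA_BMint f hf m r l).2
      · exact ((LEA_BMint f hf m r l).1).const_mul _
    rw [e1]
    field_simp
    ring

theorem LEA_tower (s r : ℕ) (f : ℝ → ℝ) (hf : BM f) (h : s ≤ r) (x : ℝ) : Es s (Es r f) x = Es s f x := by
  have hx := LEA_self s x
  rw [LEA_on s (ci s x) (Es r f) x hx, LEA_on s (ci s x) f x hx]
  have h1 := LEA_down (Es r f) f s r h (fun l => by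
    obtain ⟨a, _, b, _⟩ := LEA_mom r l f hf 0
    exact ⟨a, (LEA_BMint f hf 0 r l).1, b⟩) (ci s x)
  have h3 := LEA_down (fun t => (t - ((ci s x : ℝ) + 1 / 2) / 2 ^ s) * Es r f t) (fun t => (t - ((ci s x : ℝ) + 1 / 2) / 2 ^ s) * f t) s r h (fun l => by
    obtain ⟨_, a, _, b⟩ := LEA_mom r l f hf (((ci s x : ℝ) + 1 / 2) / 2 ^ s)
    exact ⟨a, (LEA_BMint f hf _ r l).2, b⟩) (ci s x)
  rw [h1.2.2, h3.2.2]

theorem LEA_add (s : ℕ) (f g : ℝ → ℝ) (hf : BM f) (hg : BM g) (x : ℝ) :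
    Es s (fun z => f z + g z) x = Es s f x + Es s g x ∧ Es s (fun z => f z - g z) x = Es s f x - Es s g x := by
  unfold Es
  obtain ⟨f1, f2⟩ := LEA_BMint f hf (mid s x) s (ci s x)
  obtain ⟨g1, g2⟩ := LEA_BMint g hg (mid s x) s (ci s x)
  constructor
  · have e : (fun t => (t - mid s x) * (f t + g t)) = fun t => (t - mid s x) * f t + (t - mid s x) * g t := by
      funext t
      ring
    rw [e, integral_add f1 g1, integral_add f2 g2]
    ring
  · have e : (fun t => (t - mid s x) * (f t - g t)) = fun t => (t - mid s x) * f t - (t - mid s x) * g t := by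
      funext t
      ring
    rw [e, integral_sub f1 g1, integral_sub f2 g2]
    ring

theorem LEA : LEA_stmt := by
  refine ⟨LEA_PA, LEA_PAEs, LEA_fix, LEA_add, ?_, ?_, ?_⟩
  · intro s a f x
    unfold Es
    have e : (fun t => (t - mid s x) * (a * f t)) = fun t => a * ((t - mid s x) * f t) := by
      funext t
      ring
    rw [e, integral_const_mul, integral_const_mul]
    ring
  · intro s r f hf h x
    exact ⟨LEA_tower s r f hf h x, LEA_fix r _ (LEA_PA s r _ h (LEA_PAEs s f)) x⟩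
  · intro s f g x h
    unfold Es
    have e1 : ∫ t in cell s (ci s x), f t = ∫ t in cell s (ci s x), g t := setIntegral_congr_fun (LEA_meas _ _) h
    have e2 : ∫ t in cell s (ci s x), (t - mid s x) * f t = ∫ t in cell s (ci s x), (t - mid s x) * g t := by
      refine setIntegral_congr_fun (LEA_meas _ _) ?_
      intro t ht
      show (t - mid s x) * f t = (t - mid s x) * g t
      rw [h t ht]
    rw [e1, e2]

end Pool.Agent.helper90.DH
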