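import Pool.Agent.helper48.DH.SpecY

set_option autoImplicit false

open Filter Topology MeasureTheory
open scoped commutatorElement

namespace Pool.Agent.helper90.DH

open Pool.Agent.helper64.D2

theorem yGR_int (f : ℝ → ℝ) (hf : BM f) (a b : ℝ) :
    IntervalIntegrable f volume a b ∧ IntervalIntegrable (fun t => t * f t) volume a b := by
  obtain ⟨hm, ⟨B, hB⟩, _⟩ := hf
  have h1 : IntegrableOn f (Set.uIcc a b) := by
    refine Measure.integrableOn_of_bounded (M := B) ?_ hm.aestronglyMeasurable ?_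
    · exact isCompact_uIcc.measure_lt_top.ne
    · exact Eventually.of_forall (fun x => by rw [Real.norm_eq_abs]; exact hB x)
  have h2 : IntegrableOn (fun t => t * f t) (Set.uIcc a b) :=
    h1.continuousOn_mul continuous_id.continuousOn isCompact_uIcc
  exact ⟨h1.intervalIntegrable, h2.intervalIntegrable⟩

theorem yGR_cell (s : ℕ) (k : ℤ) (F : ℝ → ℝ) :
    ∫ t in cell s k, F t = ∫ t in ((k : ℝ) / 2 ^ s)..(((k : ℝ) + 1) / 2 ^ s), F t := by
  have hle : (k : ℝ) / 2 ^ s ≤ ((k : ℝ) + 1) / 2 ^ s := by gcongr; linarith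
  unfold cell
  rw [integral_Ico_eq_integral_Ioc, ← intervalIntegral.integral_of_le hle]

theorem yGR_grid (s : ℕ) (F G : ℝ → ℝ) (hF : ∀ a b, IntervalIntegrable F volume a b) (hG : ∀ a b, IntervalIntegrable G volume a b)
    (h : ∀ k : ℤ, ∫ t in cell s k, F t = ∫ t in cell s k, G t) (k : ℤ) :
    ∫ t in (0 : ℝ)..((k : ℝ) / 2 ^ s), F t = ∫ t in (0 : ℝ)..((k : ℝ) / 2 ^ s), G t := by
  have hstep : ∀ k : ℤ, (∫ t in (0 : ℝ)..(((k + 1 : ℤ) : ℝ) / 2 ^ s), F t) - (∫ t in (0 : ℝ)..((k : ℝ) / 2 ^ s), F t) =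
      (∫ t in (0 : ℝ)..(((k + 1 : ℤ) : ℝ) / 2 ^ s), G t) - ∫ t in (0 : ℝ)..((k : ℝ) / 2 ^ s), G t := by
    intro k
    have e : ((k + 1 : ℤ) : ℝ) / 2 ^ s = ((k : ℝ) + 1) / 2 ^ s := by push_cast; rfl
    have h1 := intervalIntegral.integral_add_adjacent_intervals (hF 0 ((k : ℝ) / 2 ^ s)) (hF ((k : ℝ) / 2 ^ s) (((k : ℝ) + 1) / 2 ^ s))
    have h2 := intervalIntegral.integral_add_adjacent_intervals (hG 0 ((k : ℝ) / 2 ^ s)) (hG ((k : ℝ) / 2 ^ s) (((k : ℝ) + 1) / 2 ^ s))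
    have h3 := h k
    rw [yGR_cell, yGR_cell] at h3
    rw [e]
    linarith
  induction k using Int.induction_on with
  | zero => simp
  | succ n ih =>
    have := hstep (n : ℤ)
    linarith
  | pred n ih =>
    have h1 := hstep (-(n : ℤ) - 1)
    rw [show -(n : ℤ) - 1 + 1 = -(n : ℤ) by ring] at h1
    linarith

theorem yGR_A2 (f : ℝ → ℝ) (hf : BM f) (x : ℝ) : A2 f x = x * (∫ t in (0 : ℝ)..x, f t) - ∫ t in (0 : ℝ)..x, t * f t := by
  unfold A2
  obtain ⟨h1, h2⟩ := yGR_int f hf 0 x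
  rw [← intervalIntegral.integral_const_mul, ← intervalIntegral.integral_sub (h1.const_mul x) h2]
  refine intervalIntegral.integral_congr ?_
  intro t _
  show (x - t) * f t = x * f t - t * f t
  ring

theorem yGR_tot (F : ℝ → ℝ) (s : ℕ) (hF : ∀ x, x ∉ Set.Icc (0 : ℝ) 1 → F x = 0) :
    ∫ t, F t = ∫ t in (0 : ℝ)..((((2 : ℤ) ^ s : ℤ) : ℝ) / 2 ^ s), F t := by
  have e : (((2 : ℤ) ^ s : ℤ) : ℝ) / 2 ^ s = 1 := by
    push_cast
    exact div_self (by positivity)
  rw [e, intervalIntegral.integral_of_le zero_le_one, ← integral_Icc_eq_integral_Ioc]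
  exact (setIntegral_eq_integral_of_forall_compl_eq_zero (fun x hx => hF x hx)).symm

theorem yGR : yGR_stmt := by
  intro s f g hf hg h
  have g1 := yGR_grid s f g (fun a b => (yGR_int f hf a b).1) (fun a b => (yGR_int g hg a b).1) (fun k => (h k).1)
  have g2 := yGR_grid s (fun t => t * f t) (fun t => t * g t) (fun a b => (yGR_int f hf a b).2) (fun a b => (yGR_int g hg a b).2)
    (fun k => (h k).2)
  refine ⟨fun k => ⟨g1 k, ?_⟩, ?_, ?_⟩
  · rw [yGR_A2 f hf, yGR_A2 g hg, g1 k, g2 k]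
  · rw [yGR_tot f s hf.2.2, yGR_tot g s hg.2.2]
    exact g1 _
  · rw [yGR_tot (fun t => t * f t) s (fun x hx => by show x * f x = 0; rw [hf.2.2 x hx, mul_zero]),
      yGR_tot (fun t => t * g t) s (fun x hx => by show x * g x = 0; rw [hg.2.2 x hx, mul_zero])]
    exact g2 _

end Pool.Agent.helper90.DH
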