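import Pool.Agent.helper15.DH.Spec
import Pool.Agent.helper63.ED.LC
import Pool.Agent.helper97.ED.PS

/-!
Project dh, module NEAR: the number of close pairs of zeros.
-/

set_option autoImplicit false

open Complex MeasureTheory

namespace Pool.Agent.DH

open Pool.Agent.helper84.DM Pool.Agent.helper78.ED

theorem NEAR : NEAR_stmt := by
  classical
  intro ε hε
  obtain ⟨C₁, hC₁, h1⟩ := local_count
  refine ⟨4 * C₁ * (4 / ε ^ 2), 4, by positivity, ?_⟩
  intro T hT5 σ hσ Z hZ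
  have hT0 : 0 < T := by linarith
  have hL1 : 1 ≤ Real.log T := by
    rw [← Real.log_exp 1]
    apply Real.log_le_log (Real.exp_pos 1)
    have := Real.exp_one_lt_d9
    linarith
  have hLT : Real.log T + 2 ≤ T := PS_log hT5
  have hlog : Real.log T ≤ T ^ (ε / 2) / (ε / 2) := Real.log_le_rpow_div hT0.le (by positivity)
  have hT2 : (T ^ (ε / 2)) ^ 2 = T ^ ε := by
    rw [← Real.rpow_natCast (T ^ (ε / 2)) 2, ← Real.rpow_mul hT0.le]
    congr 1
    push_cast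
    ring
  have hlog2 : Real.log T ^ 2 ≤ 4 / ε ^ 2 * T ^ ε := by
    calc Real.log T ^ 2 ≤ (T ^ (ε / 2) / (ε / 2)) ^ 2 :=
          pow_le_pow_left₀ (by linarith) hlog 2
      _ = 4 / ε ^ 2 * (T ^ (ε / 2)) ^ 2 := by
          field_simp
          ring
      _ = 4 / ε ^ 2 * T ^ ε := by rw [hT2]
  have hnear : ∑ ρ ∈ Z, ∑ ρ' ∈ Z, (if |ρ.im - ρ'.im| < Real.log T then (1 : ℝ) else 0) ≤
      (Z.card : ℝ) * (4 * C₁ * Real.log T ^ 2) := by
    rw [← nsmul_eq_mul]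
    apply Finset.sum_le_card_nsmul
    intro ρ hρ
    rw [← Finset.sum_filter, Finset.sum_const, nsmul_eq_mul, mul_one]
    obtain ⟨a, b, c, e⟩ := hZ ρ hρ
    apply PS_near hL1 hLT Z hC₁.le _ ρ.im c e
    intro t ht1 ht2
    apply h1 T (by linarith) Z _ t ht1 ht2
    intro ρ' hρ'
    obtain ⟨a', b', c', e'⟩ := hZ ρ' hρ'
    exact ⟨a', by linarith⟩
  calc ∑ ρ ∈ Z, ∑ ρ' ∈ Z, (if |ρ.im - ρ'.im| < Real.log T then (1 : ℝ) else 0)
      ≤ (Z.card : ℝ) * (4 * C₁ * Real.log T ^ 2) := hnear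
    _ ≤ (Z.card : ℝ) * (4 * C₁ * (4 / ε ^ 2 * T ^ ε)) := by
        apply mul_le_mul_of_nonneg_left _ (Nat.cast_nonneg _)
        exact mul_le_mul_of_nonneg_left hlog2 (by positivity)
    _ = 4 * C₁ * (4 / ε ^ 2) * T ^ ε * (Z.card : ℝ) := by ring

end Pool.Agent.DH
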